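import Pool.Agent.Work.MP_10c1eb_w.Closed

/-!
# Varieties with trivial tangent bundle over a finite field without Albanese varieties

Let `X` be a smooth projective geometrically connected variety of dimension `d` over a finite field `k` of
characteristic `p`, with a rational point, with trivial tangent bundle, such that `b₁(Y) = 0` for all
finite étale coverings `Y` of `X` over the algebraic closure of `k`. Then `d = 0`, in all characteristics.

The variety enters through the structure `Model`, which contains the coordinate ring of the fundamental
group scheme of Nori of `X`, the theta group of an ample line bundle and facts on them; see its
documentation in `Pool/Agent/Work/MP_10c1eb_w/Data.lean`. The group theoretic part of the proof is the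
hand-in `FrobeniusTower`, without assumptions.
-/

set_option autoImplicit false

open Pool.TTriv

universe u

theorem Pool.Agent.Results.MP_10c1eb_ag.FiniteFieldCase.result (p : ℕ) [Fact p.Prime] (k : Type u)
    [Field k] [Finite k] [CharP k p] (X : Model p k) : X.dim = 0 :=
  modelDimZero p k X
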