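import Pool.Agent.Work.MP_10c1eb_g47.Final
import Pool.Agent.Work.MP_10c1eb_w.Short

/-!
# Normal subgroups of the fundamental group scheme of a variety with trivial tangent bundle

Let `k` be a finite field with `q` elements and characteristic `p`, `O` a commutative Hopf algebra over
`k`, `P = Spec O` the affine group scheme, `Φ : P → P` the Frobenius endomorphism `f ↦ f ^ q`. Suppose
* `perfect`: every element of `O` is a `p`-th power (`Φ` is a closed immersion);
* `index`: the ideal of the elements whose `p`-th power is zero is finitely generated (then `Φ P` is of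
  finite index in `P`);
* `profinite`: `P` is profinite;
* `unipotent`: `P` acts unipotently on the functions on `P~ / P`, where `P~` is the union of the groups
  `Φ ^ (-n) P`.
The example is the fundamental group scheme of Nori of a smooth projective variety `X` over `k` with
trivial tangent bundle and a rational point `x`: here `P~ / P` is the formal completion of `X` at `x`.

A closed subgroup `N` of `P` is called good if it is normal in `P`, saturated (`Φ y ∈ N` implies `y ∈ N`)
and infinitesimal. For instance the identity component of `P` is good. Let `N~` be the union of the groups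
`N_n = Φ ^ (-n) N`.

The theorem: if `N₀ ≠ 1` is good then there is a good subgroup `1 ≠ N ⊆ N₀` with one of the following
properties.
1. `N` is commutative and `x ^ p = 1` for all `x` in `N`; then the orders of the finite group schemes
   `N_n / N` are not bounded, and for every central extension `E` of `P~` by the multiplicative group, with
   a section over `P` (such as the theta group of the pull-back of a line bundle on `X` to the universal
   torsor) and every `n` there is a character of weight `p` of the inverse image of `N_n P` in `E`, trivial
   on the image of `P` under the section;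
2. `N` is commutative without `p`-torsion; then `N~ / N` is a `p`-divisible group;
3. there is a closed subgroup `P₁` of finite index in `P` such that `[P₁, N~] ⊆ N`; in particular
   `y⁻¹ P₁ y ⊆ P` for all `y` in `N~`.
-/

set_option autoImplicit false

open Pool.TTriv

universe u

theorem Pool.Agent.Results.MP_10c1eb_ag.FrobeniusTower.result (p : ℕ) [Fact p.Prime] (k O : Type u)
    [Field k] [Finite k] [CharP k p] [CommRing O] [HopfAlgebra k O]
    (perfect : ∀ f : O, ∃ g : O, g ^ p = f)
    (index : ∃ s : Finset O, ∀ f : O, f ^ p = 0 ↔ f ∈ Ideal.span (s : Set O))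
    (profinite : Profin k O) (unipotent : Unip k O)
    (J₀ : Ideal O) (good : Good k J₀) (nonTriv : NonTriv k J₀) :
    ∃ J : Ideal O, J₀ ≤ J ∧ Good k J ∧ NonTriv k J ∧
      ((IsComm k J ∧
          (∀ (R : Type u) [CommRing R] [Algebra k R] (x : Pt k O R), Mem J x → x ^ p = 1) ∧
          (∀ D : ℕ, ∃ n : ℕ, ¬ OrdLE k J n D) ∧
          ∀ (T : PT k O) (Θ : ThetaGroup T) (n : ℕ), Θ.HasChar J p n) ∨
        (IsComm k J ∧
          ∀ (R : Type u) [CommRing R] [Algebra k R] (x : Pt k O R), Mem J x → x ^ p = 1 → x = 1) ∨
        OpenComm k J) := by
  obtain ⟨J, h0, hJ, hn, h | h | h⟩ :=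
    theorem_G p k O perfect index profinite unipotent J₀ good nonTriv
  · refine ⟨J, h0, hJ, hn, Or.inl ⟨h.1, h.2, fun D => ?_, fun T Θ n =>
      Θ.hasChar_old J p n (W_hasChar Θ.old p hJ h.1 h.2 n)⟩⟩
    by_contra hD
    push Not at hD
    exact W_unb (qroot p k O perfect) profinite hJ D hD hn
  · exact ⟨J, h0, hJ, hn, Or.inr (Or.inl h)⟩
  · exact ⟨J, h0, hJ, hn, Or.inr (Or.inr h)⟩
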