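import Pool.Agent.Work.MP_10c1eb_w.Closed

/-!
# Varieties with trivial tangent bundle in characteristic `p > 3` are abelian varieties

The varieties with trivial tangent bundle over the algebraically closed fields of characteristic `p` enter
through the structure `World` (see its documentation in `Pool/Agent/Work/MP_10c1eb_w/World.lean`), which
reduces the question to the varieties over finite fields without Albanese varieties; these enter through
the structure `Model` (see its documentation in `Pool/Agent/Work/MP_10c1eb_w/Data.lean`).
-/

set_option autoImplicit false

open Pool.TTriv

universe u v

theorem Pool.Agent.Results.MP_10c1eb_ag.LargeCharacteristic.result (p : ℕ) [Fact p.Prime] (hp : 3 < p)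
    (W : World.{v} p (FinModel.{u} p) FinModel.dim) (X : W.V) : W.IsAbelian X :=
  worldAbelian p hp W X
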