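import Pool.Agent.Work.MP_10c1eb_ag_h28.Short

/-!
# Varieties with trivial tangent bundle in characteristic `p` with `b₁ = 0` have infinite `π₁`

`k` is an algebraically closed field of characteristic `p > 0`.

(1) A theorem on commutative Hopf algebras, without further hypotheses: let `O` be a commutative Hopf
algebra over a perfect field `K` of characteristic `p`, that is `P = Spec O` an affine group scheme, such
that
* `P` is pro-unipotent (`O` is the union of the spaces `fil` of the polynomial functions);
* `x ^ (p ^ r) = 0` for all primitive `x`, with a fixed `r`;
* the functions on `P / F P` form a finite-dimensional space, `F` the Frobenius;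
* the largest commutative quotient of `P` is finite.
Then `O` is finite-dimensional, that is `P` is a finite group scheme.

(2) Let `X` be a smooth projective variety over `k` with trivial tangent bundle and `b₁(X) = 0`. If `X`
has no connected étale covering with group `ℤ/p` then `X` is a point. (So a smooth projective variety of
positive dimension with trivial tangent bundle is never simply connected, and its étale fundamental group
is infinite: apply this to its étale coverings.)

(3) Let `X` be a smooth projective variety over `k` with trivial tangent bundle, of dimension `d`, with
`b₁(X) = 0`, and let `p > 2 d + 1`. If `X` has an étale Galois covering `X'`, whose group is a `p`-group,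
without connected étale covering of `X'` with group `ℤ/p` (in other words, if the largest pro-`p` quotient
of the étale fundamental group of `X` is finite) then `X` is a point.

The varieties enter through the structures `TrivialTangent` and `GaloisPCovering`, which contain the Hopf
algebra of the unipotent fundamental group scheme of Nori and facts on it and on `X`; see their
documentation in `Pool/Agent/Work/MP_10c1eb_ag_h28/Short.lean`.
-/

set_option autoImplicit false

open Pool.TTriv

universe u

theorem Pool.Agent.Results.MP_10c1eb_ag.TrivialTangent.result (p : ℕ) [Fact p.Prime] :
    (∀ (K O : Type u) [Field K] [CharP K p] [CommRing O] [HopfAlgebra K O],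
      (∀ a : K, ∃ b : K, b ^ p = a) → ProUnipotent K O →
      ∀ r : ℕ, (∀ x : O, IsPrimitive K x → x ^ (p ^ r) = 0) →
      ∀ N : ℕ, FrobeniusIndexLE K O p N → FiniteAbelianisation K O → FiniteDimensional K O) ∧
    (∀ (k : Type u) [Field k] [CharP k p] [IsAlgClosed k],
      (∀ X : TrivialTangent p k, X.b1 = 0 → X.NoCyclicCover → X.dim = 0) ∧
      (∀ (X' X : TrivialTangent p k) (_ : GaloisPCovering X' X), 2 * X.dim + 1 < p → X.b1 = 0 →
        X'.NoCyclicCover → X.dim = 0)) :=
  ⟨fun K O _ _ _ _ hk hU r hr N hI hA => hopf_finite' p K O hk hU r hr N hI hA,
    fun k _ _ _ => ⟨fun X h0 h1 => trivial_dim_zero p k X h0 h1,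
      fun X' X c hp h0 h1 => trivial_dim_zero' p k X' X c hp h0 h1⟩⟩
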